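import Pool.Agent.LPW.StmtsC

/-!
# Squad LPW, row IFT (helper31): the implicit function, approximately
-/

set_option autoImplicit false

open Polynomial

namespace Pool.Agent.LPW.H31

theorem vec_eq (P : Fin 2 → ℤ) : ![P 0, P 1] = P := by
  funext i
  fin_cases i <;> rfl

/-- Taylor expansion with respect to the second variable -/
theorem taylor (G : MvPolynomial (Fin 2) ℤ) (u v h : ℤ) :
    ∃ q : ℤ, MvPolynomial.eval ![u, v + h] G = MvPolynomial.eval ![u, v] G +
      MvPolynomial.eval ![u, v] (MvPolynomial.pderiv 1 G) * h + q * h ^ 2 := by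
  induction G using MvPolynomial.induction_on with
  | C a =>
    refine ⟨0, ?_⟩
    simp
  | add p q hp hq =>
    obtain ⟨a, ha⟩ := hp
    obtain ⟨b, hb⟩ := hq
    refine ⟨a + b, ?_⟩
    rw [map_add, map_add, map_add, map_add, ha, hb]
    ring
  | mul_X p i hp =>
    obtain ⟨a, ha⟩ := hp
    rw [MvPolynomial.pderiv_mul, map_mul, map_mul, map_add, map_mul, map_mul, ha]
    fin_cases i
    · refine ⟨a * u, ?_⟩
      have h1 : MvPolynomial.pderiv (1 : Fin 2) (MvPolynomial.X (0 : Fin 2) :
          MvPolynomial (Fin 2) ℤ) = 0 := MvPolynomial.pderiv_X_of_ne (by decide)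
      simp only [Fin.zero_eta, h1, MvPolynomial.eval_X, Matrix.cons_val_zero, map_zero]
      ring
    · refine ⟨MvPolynomial.eval ![u, v] (MvPolynomial.pderiv 1 p) + a * v + a * h, ?_⟩
      simp only [Fin.mk_one, MvPolynomial.pderiv_X_self, MvPolynomial.eval_X,
        Matrix.cons_val_one, Matrix.cons_val_fin_one, map_one]
      ring

/-- values at congruent points are congruent -/
theorem congr_eval (G : MvPolynomial (Fin 2) ℤ) (l : ℤ) (P Q : Fin 2 → ℤ)
    (h : ∀ i, l ∣ P i - Q i) : l ∣ MvPolynomial.eval P G - MvPolynomial.eval Q G := by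
  induction G using MvPolynomial.induction_on with
  | C a => simp
  | add p q hp hq =>
    rw [map_add, map_add]
    have h1 : MvPolynomial.eval P p + MvPolynomial.eval P q -
        (MvPolynomial.eval Q p + MvPolynomial.eval Q q) =
        (MvPolynomial.eval P p - MvPolynomial.eval Q p) +
        (MvPolynomial.eval P q - MvPolynomial.eval Q q) := by ring
    rw [h1]
    exact dvd_add hp hq
  | mul_X p i hp =>
    rw [map_mul, map_mul, MvPolynomial.eval_X, MvPolynomial.eval_X]
    have h1 : MvPolynomial.eval P p * P i - MvPolynomial.eval Q p * Q i =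
        MvPolynomial.eval P p * (P i - Q i) +
        (MvPolynomial.eval P p - MvPolynomial.eval Q p) * Q i := by ring
    rw [h1]
    exact dvd_add (Dvd.dvd.mul_left (h i) _) (Dvd.dvd.mul_right hp _)

/-- values of the substituted polynomial -/
theorem eval_sub (G : MvPolynomial (Fin 2) ℤ) (a : ℤ) (τ : ℤ[X]) (x : ℤ) :
    (MvPolynomial.aeval ![C a + X, τ] G : ℤ[X]).eval x =
      MvPolynomial.eval ![a + x, τ.eval x] G := by
  induction G using MvPolynomial.induction_on with
  | C b => simp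
  | add p q hp hq => rw [map_add, eval_add, hp, hq, map_add]
  | mul_X p i hp =>
    rw [map_mul, eval_mul, hp, map_mul, MvPolynomial.aeval_X, MvPolynomial.eval_X]
    congr 1
    fin_cases i
    · simp
    · simp

/-- row IFT -/
theorem ift : IftStmt := by
  intro l hl G P₁ hD M
  set D := MvPolynomial.eval P₁ (MvPolynomial.pderiv 1 G) with hDdef
  obtain ⟨w, hw⟩ : ∃ w : ℤ, (l : ℤ) ∣ 1 - w * D := by
    have h1 : IsCoprime (l : ℤ) D :=
      ((Nat.prime_iff_prime_int.1 hl).coprime_iff_not_dvd).2 hD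
    obtain ⟨a, b, hab⟩ := h1
    exact ⟨b, ⟨a, by linear_combination -hab⟩⟩
  -- the induction step from `M ≥ 1`
  have key : ∀ M : ℕ, ∃ τ : ℤ[X], ∀ P : Fin 2 → ℤ, MvPolynomial.eval P G = 0 →
      (∀ i, (l : ℤ) ∣ P i - P₁ i) → (l : ℤ) ^ (M + 1) ∣ P 1 - τ.eval (P 0 - P₁ 0) := by
    intro M
    induction M with
    | zero =>
      refine ⟨C (P₁ 1), fun P _ hP => ?_⟩
      rw [zero_add, pow_one, eval_C]
      exact hP 1
    | succ M ih =>
      obtain ⟨τ, hτ⟩ := ih
      refine ⟨τ - C w * MvPolynomial.aeval ![C (P₁ 0) + X, τ] G, fun P hG hP => ?_⟩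
      obtain ⟨z, hz⟩ := hτ P hG hP
      set t : ℤ := τ.eval (P 0 - P₁ 0) with ht
      have hP1 : P 1 = t + (l : ℤ) ^ (M + 1) * z := by linear_combination hz
      obtain ⟨q, hq⟩ := taylor G (P 0) t ((l : ℤ) ^ (M + 1) * z)
      rw [← hP1, vec_eq, hG] at hq
      have hE : MvPolynomial.eval ![P₁ 0 + (P 0 - P₁ 0), t] G = MvPolynomial.eval ![P 0, t] G := by
        rw [add_sub_cancel]
      rw [Polynomial.eval_sub, Polynomial.eval_mul, eval_C, eval_sub, ← ht, hE]
      -- the derivative modulo `l`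
      have h2 : (l : ℤ) ∣ t - P₁ 1 := by
        have h3 : t - P₁ 1 = (P 1 - P₁ 1) - (P 1 - t) := by ring
        rw [h3, hz]
        refine dvd_sub (hP 1) (Dvd.dvd.mul_right ?_ _)
        exact dvd_pow_self _ (Nat.succ_ne_zero M)
      have h4 : (l : ℤ) ∣ MvPolynomial.eval ![P 0, t] (MvPolynomial.pderiv 1 G) - D := by
        apply congr_eval
        intro i
        fin_cases i
        · exact hP 0
        · exact h2
      obtain ⟨d, hd⟩ := h4
      obtain ⟨e, he⟩ := hw
      refine ⟨z * (e - w * d) - w * q * (l : ℤ) ^ M * z ^ 2, ?_⟩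
      have h5 : MvPolynomial.eval ![P 0, t] (MvPolynomial.pderiv 1 G) = D + l * d := by
        linear_combination hd
      rw [h5] at hq
      rw [hP1]
      have h6 : MvPolynomial.eval ![P 0, t] G =
          -((D + l * d) * ((l : ℤ) ^ (M + 1) * z)) - q * ((l : ℤ) ^ (M + 1) * z) ^ 2 := by
        linear_combination -hq
      rw [h6]
      have h7 : 1 = w * D + l * e := by linear_combination he
      have h8 : z = (w * D + l * e) * z := by rw [← h7, one_mul]
      calc t + (l : ℤ) ^ (M + 1) * z - (t - w * (-((D + l * d) * ((l : ℤ) ^ (M + 1) * z)) -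
            q * ((l : ℤ) ^ (M + 1) * z) ^ 2))
          = (l : ℤ) ^ (M + 1) * z * (1 - w * D) - w * (l * d) * ((l : ℤ) ^ (M + 1) * z) -
            w * q * ((l : ℤ) ^ (M + 1) * z) ^ 2 := by ring
        _ = (l : ℤ) ^ (M + 1) * z * (l * e) - w * (l * d) * ((l : ℤ) ^ (M + 1) * z) -
            w * q * ((l : ℤ) ^ (M + 1) * z) ^ 2 := by rw [he]
        _ = (l : ℤ) ^ (M + 1 + 1) * (z * (e - w * d) - w * q * (l : ℤ) ^ M * z ^ 2) := by ring
  rcases Nat.eq_zero_or_pos M with h0 | h0
  · refine ⟨0, fun P _ _ => ?_⟩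
    rw [h0, pow_zero]
    exact one_dvd _
  · obtain ⟨τ, hτ⟩ := key (M - 1)
    rw [Nat.sub_add_cancel h0] at hτ
    exact ⟨τ, hτ⟩

end Pool.Agent.LPW.H31
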